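import Pool.Agent.ZP3.Stmts

/-!
Squad ZP3 (MP_6e1a06_nt), row LP2: second pattern `r = e`, reduction to the vertex.
-/

set_option autoImplicit false

namespace Pool.Agent.ZP3.H77

open Polynomial Pool.Agent.ZPT

noncomputable section

section ultra

variable {K : Type} [NormedField K] [IsUltrametricDist K]

theorem add_le' {a b : K} {c : ℝ} (ha : ‖a‖ ≤ c) (hb : ‖b‖ ≤ c) : ‖a + b‖ ≤ c :=
  (IsUltrametricDist.norm_add_le_max a b).trans (max_le ha hb)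

theorem sub_le' {a b : K} {c : ℝ} (ha : ‖a‖ ≤ c) (hb : ‖b‖ ≤ c) : ‖a - b‖ ≤ c := by
  rw [sub_eq_add_neg]; exact add_le' ha (by rwa [norm_neg])

theorem add_lt' {a b : K} {c : ℝ} (ha : ‖a‖ < c) (hb : ‖b‖ < c) : ‖a + b‖ < c :=
  (IsUltrametricDist.norm_add_le_max a b).trans_lt (max_lt ha hb)

theorem sub_lt' {a b : K} {c : ℝ} (ha : ‖a‖ < c) (hb : ‖b‖ < c) : ‖a - b‖ < c := by
  rw [sub_eq_add_neg]; exact add_lt' ha (by rwa [norm_neg])

theorem norm_eq' {a b : K} (h : ‖a - b‖ < ‖b‖) : ‖a‖ = ‖b‖ := by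
  have h1 : ‖(a - b) + b‖ = max ‖a - b‖ ‖b‖ :=
    IsUltrametricDist.norm_add_eq_max_of_norm_ne_norm h.ne
  rw [sub_add_cancel, max_eq_right h.le] at h1
  exact h1

theorem tail [CompleteSpace K] {A : ℕ → K} (hA : ∀ n, ‖A n‖ ≤ 1) {t : K} (ht : ‖t‖ < 1) :
    ‖(∑' n : ℕ, A n * t ^ n) - A 0‖ ≤ ‖t‖ := by
  have hs : Summable fun n : ℕ => A n * t ^ n := by
    refine Summable.of_norm_bounded (g := fun n => ‖t‖ ^ n)
      (summable_geometric_of_lt_one (norm_nonneg _) ht) fun n => ?_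
    rw [norm_mul, norm_pow]
    exact mul_le_of_le_one_left (by positivity) (hA n)
  rw [hs.tsum_eq_zero_add]
  simp only [pow_zero, mul_one, add_sub_cancel_left]
  refine IsUltrametricDist.norm_tsum_le_of_forall_le_of_nonneg (norm_nonneg _) fun n => ?_
  rw [norm_mul, norm_pow, pow_succ]
  calc ‖A (n + 1)‖ * (‖t‖ ^ n * ‖t‖) ≤ 1 * (1 * ‖t‖) := by
        gcongr
        · exact hA _
        · exact pow_le_one₀ (norm_nonneg _) ht.le
    _ = ‖t‖ := by ring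

theorem near_one {p : ℕ} (hp : p.Prime) (hp2 : Odd p) (hpn : ‖(p : K)‖ < 1) {k : ℕ} {w : K}
    (hw : w ^ (p ^ k) = 1) : ‖w - 1‖ < 1 := by
  have hw1 : ‖w‖ = 1 := by
    have := congrArg norm hw
    rw [norm_pow, norm_one] at this
    exact (pow_eq_one_iff_of_nonneg (norm_nonneg _) (pow_ne_zero _ hp.pos.ne')).1 this
  have h1 := (Commute.all w (-1 : K)).add_pow_prime_pow_eq' hp k
  rw [hw, (hp2.pow).neg_one_pow, ← sub_eq_add_neg, ← sub_eq_add_neg, sub_self, zero_add] at h1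
  have h2 : ‖∑ i ∈ Finset.Ioo 0 (p ^ k), w ^ i * (-1 : K) ^ (p ^ k - i) *
      (((p ^ k).choose i / p : ℕ) : K)‖ ≤ 1 := by
    refine IsUltrametricDist.norm_sum_le_of_forall_le_of_nonneg zero_le_one fun i _ => ?_
    rw [norm_mul, norm_mul, norm_pow, norm_pow, hw1, norm_neg, norm_one, one_pow, one_pow, one_mul,
      one_mul]
    exact IsUltrametricDist.norm_natCast_le_one K _
  by_contra hcon
  have h3 : 1 ≤ ‖(w - 1) ^ (p ^ k)‖ := by
    rw [norm_pow]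
    exact one_le_pow₀ (not_lt.1 hcon)
  rw [h1, norm_mul] at h3
  have h4 : ‖(p : K)‖ * ‖∑ i ∈ Finset.Ioo 0 (p ^ k), w ^ i * (-1 : K) ^ (p ^ k - i) *
      (((p ^ k).choose i / p : ℕ) : K)‖ ≤ ‖(p : K)‖ * 1 := by gcongr
  linarith

end ultra

theorem norm_p {p : ℕ} (hp : p.Prime) {K : Type} [NormedField K] [CharZero K] (hext : Ext p K) :
    ‖(p : K)‖ = (p : ℝ)⁻¹ := by
  have h := hext (p : ℚ)
  rw [padicNorm.padicNorm_p hp.one_lt] at h
  rw [Rat.cast_natCast] at h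
  rw [h]
  push_cast
  rfl

theorem pw {K : Type} [Field K] {x y : K} {N M : ℕ} (hy : y ≠ 0) (h : (x / y) ^ N = 1)
    (hd : N ∣ M) : x ^ M = y ^ M := by
  obtain ⟨c, rfl⟩ := hd
  rw [div_pow, div_eq_one_iff_eq (pow_ne_zero _ hy)] at h
  rw [pow_mul, pow_mul, h]

/-- A root of unity at distance less than `th p` from an unramified element is tame. -/
theorem tame_of_near (hROU : ROUStmt) (hURR : URRStmt) (hURT : URTStmt) (hTHB : THBStmt)
    (hSPL : SPLStmt) {p : ℕ} (hp : p.Prime) (hp5 : 5 ≤ p) {K : Type} [NormedField K] [CharZero K]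
    [IsUltrametricDist K] (hext : Ext p K) {x α : K} (hx : Ro x) (hα : Ur p α)
    (h : ‖x - α‖ < th p) : Tame p x := by
  obtain ⟨-, -, thl, th3, -⟩ := hTHB p hp hp5
  obtain ⟨r1, -, -, r4, -⟩ := hURR p hp K hext
  obtain ⟨t1, -⟩ := hURT p hp K hext
  obtain ⟨y, w, hxy, hy, hw⟩ := hSPL p hp K x hx
  have th0 : 0 < th p := lt_of_le_of_lt (norm_nonneg _) h
  have thp : (p : ℝ)⁻¹ < th p := by
    refine th3.trans_le ?_
    calc th p ^ 3 ≤ th p ^ 1 := pow_le_pow_of_le_one th0.le thl.le (by norm_num)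
      _ = th p := pow_one _
  have hyu := t1 y hy
  have hpn : ‖(p : K)‖ < 1 := by
    rw [norm_p hp hext]
    exact inv_lt_one_of_one_lt₀ (by exact_mod_cast hp.one_lt)
  have hw1 : w = 1 := by
    rcases hw with hw | ⟨k, -, hw⟩
    · exact hw
    · have hw2 := near_one hp (hp.odd_of_ne_two (by omega)) hpn hw.pow_eq_one
      have hwn : ‖w‖ = 1 := by
        have := norm_eq' (a := w) (b := (1 : K)) (by rwa [norm_one])
        rwa [norm_one] at this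
      have e1 : y - α = (x - α) - y * (w - 1) := by rw [hxy]; ring
      have h2 : ‖y - α‖ < 1 := by
        rw [e1]
        refine sub_lt' (h.trans thl) ?_
        rw [norm_mul, hyu.2, one_mul]
        exact hw2
      have h3 := r4 (y - α) (r1 y α hyu.1 hα).2.2.2 h2
      have e2 : y * (w - 1) = (x - α) - (y - α) := by rw [hxy]; ring
      have h4 : ‖w - 1‖ < th p := by
        have : ‖y * (w - 1)‖ < th p := by
          rw [e2]
          exact sub_lt' h (h3.trans_lt thp)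
        rwa [norm_mul, hyu.2, one_mul] at this
      by_contra hne
      exact absurd (hROU p hp (by omega) K hext w ⟨p ^ k, Nat.pos_of_ne_zero
        (pow_ne_zero _ hp.pos.ne'), hw.pow_eq_one⟩ hne) (not_le.2 h4)
  rw [hxy, hw1, mul_one]
  exact hy

theorem lp2 (hTTL : TTLStmt) (hTAT : TATStmt) (hRES : RESStmt) (hROU : ROUStmt)
    (hURR : URRStmt) (hURT : URTStmt) (hDEP : DEPStmt) (hTHB : THBStmt) (hSPL : SPLStmt) :
    LP2Stmt := by
  intro U hU p hp K _ _ _ _ _ hext e A g₁ g₂ g₃ he hpe hA hA0 hg1 hg2 hg3 hD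
  have hp12 : 12 < p := by omega
  obtain ⟨th1, th0, thl, th3, th4⟩ := hTHB p hp (by omega)
  obtain ⟨r1, r2, r3, r4, r5⟩ := hURR p hp K hext
  obtain ⟨u1, hq⟩ := hTAT U hU p hp (by omega) K hext
  have hpn := norm_p hp hext
  have pR : (1 : ℝ) < p := by exact_mod_cast hp.one_lt
  have p0 : (0 : ℝ) < p := by linarith
  have pK : (p : K) ≠ 0 := by exact_mod_cast hp.pos.ne'
  have mulU : ∀ a b : K, Uu p a → Uu p b → Uu p (a * b) := fun a b ha hb =>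
    ⟨(r1 a b ha.1 hb.1).2.1, by rw [norm_mul, ha.2, hb.2, one_mul]⟩
  have negU : ∀ a : K, Uu p a → Uu p (-a) := fun a ha =>
    ⟨(r1 a a ha.1 ha.1).2.2.1, by rw [norm_neg, ha.2]⟩
  have divU : ∀ a b : K, Uu p a → Uu p b → Uu p (a / b) := fun a b ha hb => by
    rw [div_eq_mul_inv]; exact mulU _ _ ha (r5 b hb)
  have oneU : Uu p (1 : K) := ⟨by exact_mod_cast r3 1, norm_one⟩
  have hα : Uu p (A 0) := ⟨hA 0, hA0⟩
  set α := A 0 with hαdef
  have hDu : Uu p (g₁ - α * g₂) := ⟨(r1 g₁ (α * g₂) hg1.1 (mulU _ _ hα hg2).1).2.2.2, hD⟩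
  set D := g₁ - α * g₂ with hDdef
  have hB1 : Uu p α := hα
  have hB2 : Uu p (-1 : K) := negU _ oneU
  have hB3 : Uu p (-D / g₃) := divU _ _ (negU _ hDu) hg3
  obtain ⟨N1, hN1, k1⟩ := hRES p hp K hext α hα.1
  obtain ⟨N2, hN2, k2⟩ := hRES p hp K hext (-(-1 / α)) (negU _ (divU _ _ hB2 hB1)).1
  obtain ⟨N3, hN3, k3⟩ := hRES p hp K hext (-D / g₃ / α) (divU _ _ hB3 hB1).1
  obtain ⟨N4, hN4, k4⟩ := hRES p hp K hext (-D / g₃ / (-1)) (divU _ _ hB3 hB2).1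
  obtain ⟨N5, hN5, k5⟩ := hRES p hp K hext (g₂ / g₃) (divU _ _ hg2 hg3).1
  refine ⟨N1 * N2 * N3 * N4 * N5, ?_, fun t x₃ q₁ q₂ q₃ P => ?_⟩
  · exact Nat.one_le_iff_ne_zero.2 (by
      refine mul_ne_zero (mul_ne_zero (mul_ne_zero (mul_ne_zero ?_ ?_) ?_) ?_) ?_ <;> omega)
  have dN5 : N5 ∣ N1 * N2 * N3 * N4 * N5 := dvd_mul_left _ _
  have dN4 : N4 ∣ N1 * N2 * N3 * N4 * N5 := (dvd_mul_left _ _).mul_right _
  have dN3 : N3 ∣ N1 * N2 * N3 * N4 * N5 := ((dvd_mul_left _ _).mul_right _).mul_right _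
  have dN2 : N2 ∣ N1 * N2 * N3 * N4 * N5 :=
    (((dvd_mul_left _ _).mul_right _).mul_right _).mul_right _
  have dN1 : N1 ∣ N1 * N2 * N3 * N4 * N5 :=
    (((dvd_mul_right _ _).mul_right _).mul_right _).mul_right _
  generalize N1 * N2 * N3 * N4 * N5 = M at dN1 dN2 dN3 dN4 dN5
  -- notation
  have q1ne : q₁ ≠ 0 := norm_pos_iff.1 P.q10
  have q2ne : q₂ ≠ 0 := norm_pos_iff.1 P.q20
  have q3ne : q₃ ≠ 0 := norm_pos_iff.1 P.q30
  have tne : t ≠ 0 := norm_pos_iff.1 P.t0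
  obtain ⟨n1, m1⟩ := hq q₁ P.q10 P.q11
  obtain ⟨n2, m2⟩ := hq q₂ P.q20 P.q21
  obtain ⟨n3, m3⟩ := hq q₃ P.q30 P.q31
  have hS := tail (fun n => (hA n).1) P.t1
  have E1 := P.e1
  have E2 := P.e2
  have E3 := P.e3
  set S := ∑' n : ℕ, A n * t ^ n with hSdef
  set u := ((PowerSeries.coeff 1 U : ℚ) : K) with hudef
  set X₁ := jv U q₁ with hX1
  set X₂ := jv U q₂ with hX2
  set X₃ := jv U q₃ with hX3
  -- `q_i⁻¹ = X_i + O(1)`
  have m1' : ‖q₁⁻¹ - X₁‖ ≤ 1 := by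
    have e1 : q₁⁻¹ - X₁ = (q₁⁻¹ - (X₁ - u)) - u := by ring
    rw [e1]; exact sub_le' (m1.trans P.q11.le) u1
  have m2' : ‖q₂⁻¹ - X₂‖ ≤ 1 := by
    have e1 : q₂⁻¹ - X₂ = (q₂⁻¹ - (X₂ - u)) - u := by ring
    rw [e1]; exact sub_le' (m2.trans P.q21.le) u1
  have m3' : ‖q₃⁻¹ - X₃‖ ≤ 1 := by
    have e1 : q₃⁻¹ - X₃ = (q₃⁻¹ - (X₃ - u)) - u := by ring
    rw [e1]; exact sub_le' (m3.trans P.q31.le) u1
  have gn : ∀ g : K, ‖g‖ = 1 → ‖g / p‖ = p := fun g hg => by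
    rw [norm_div, hg, hpn, one_div, inv_inv]
  have m3g : ‖q₃⁻¹ - g₃ / p‖ ≤ 1 := by
    have e1 : q₃⁻¹ - g₃ / p = (q₃⁻¹ - X₃) + x₃ := by rw [E3]; ring
    rw [e1]; exact add_le' m3' P.hx
  have hθn : ‖(1 : K) / t ^ e‖ * ‖t‖ ^ e = 1 := by
    rw [norm_div, norm_one, norm_pow, one_div, inv_mul_cancel₀ (pow_ne_zero _ P.t0.ne')]
  have hX1e : X₁ = S * (1 / t ^ e) + g₁ / p := by rw [E1]; ring
  set θ := (1 : K) / t ^ e with hθdef
  have θ0 : 0 < ‖θ‖ := norm_pos_iff.2 (by rw [hθdef]; exact one_div_ne_zero (pow_ne_zero _ tne))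
  have hn13 := P.d13
  have hn23 := P.d23
  -- the two regions
  rcases lt_or_ge (p : ℝ) (‖θ‖ * th p) with hfar | hnear
  · -- far region
    right; right; left
    have ht : ‖t‖ < th p := by
      by_contra hcon
      have hcon := not_lt.1 hcon
      have h1 : th p ^ e ≤ ‖t‖ ^ e := pow_le_pow_left₀ th0.le hcon e
      have h2 : ‖θ‖ * th p ^ e ≤ 1 := by
        rw [← hθn]; gcongr
      have h3 : (p : ℝ)⁻¹ ≤ th p ^ e := by
        rw [← th1]
        exact pow_le_pow_of_le_one th0.le thl.le (by omega)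
      have h4 : (p : ℝ) < ‖θ‖ := hfar.trans_le (mul_le_of_le_one_right θ0.le thl.le)
      have h5 : 1 < ‖θ‖ * (p : ℝ)⁻¹ := by
        rw [← div_eq_mul_inv]
        exact (one_lt_div p0).2 h4
      have h6 : ‖θ‖ * (p : ℝ)⁻¹ ≤ ‖θ‖ * th p ^ e := by gcongr
      linarith
    have hθ1 : 1 < ‖θ‖ * th p := pR.trans hfar
    have a2 : ‖q₂⁻¹ - θ‖ < ‖θ‖ * th p := by
      have e1 : q₂⁻¹ - θ = (q₂⁻¹ - X₂) + g₂ / p := by rw [E2]; ring
      rw [e1]
      exact add_lt' (m2'.trans_lt hθ1) (by rw [gn g₂ hg2.2]; exact hfar)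
    have a1 : ‖q₁⁻¹ - α * θ‖ < ‖θ‖ * th p := by
      have e1 : q₁⁻¹ - α * θ = ((q₁⁻¹ - X₁) + g₁ / p) + θ * (S - α) := by rw [hX1e]; ring
      rw [e1]
      refine add_lt' (add_lt' (m1'.trans_lt hθ1) (by rw [gn g₁ hg1.2]; exact hfar)) ?_
      rw [norm_mul]
      calc ‖θ‖ * ‖S - α‖ ≤ ‖θ‖ * ‖t‖ := by gcongr
        _ < ‖θ‖ * th p := by gcongr
    have hlt : ‖θ‖ * th p < ‖θ‖ := by
      calc ‖θ‖ * th p < ‖θ‖ * 1 := by gcongr
        _ = ‖θ‖ := mul_one _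
    have b2 : ‖q₂⁻¹‖ = ‖θ‖ := norm_eq' (a2.trans hlt)
    have b1 : ‖q₁⁻¹‖ = ‖θ‖ := by
      have h1 : ‖α * θ‖ = ‖θ‖ := by rw [norm_mul, hα.2, one_mul]
      rw [← h1]
      exact norm_eq' (by rw [h1]; exact a1.trans hlt)
    have hnn : ‖q₂‖ = ‖q₁‖ := by
      have := b2.trans b1.symm
      rwa [norm_inv, norm_inv, inv_inj] at this
    obtain ⟨a, b, ha, hb, hab⟩ := hn13
    obtain ⟨c, d, hc, hd, hcd⟩ := hn23
    have hRo : Ro (q₂ / q₁) :=
      (hDEP K q₂ q₁ q₃ c d a b q3ne P.q31.ne hc hd ha hb hcd hab).1 hnn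
    have hcl : ‖q₂ / q₁ - α‖ < th p := by
      have e1 : q₂ / q₁ - α = ((q₁⁻¹ - α * θ) - α * (q₂⁻¹ - θ)) / q₂⁻¹ := by
        field_simp
        ring
      rw [e1, norm_div, b2, div_lt_iff₀ θ0, mul_comm (th p)]
      refine sub_lt' a1 ?_
      rw [norm_mul, hα.2, one_mul]
      exact a2
    have htm := tame_of_near hROU hURR hURT hTHB hSPL hp (by omega) hext hRo hα.1 hcl
    exact (pw q1ne (k1 _ htm (hcl.trans thl)) dN1).symm
  · -- near region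
    set ρ : ℝ := (p : ℝ) ^ (-(1 : ℝ) / (2 * (e : ℝ))) with hρ
    have ρ0 : 0 < ρ := Real.rpow_pos_of_pos p0 _
    have hρ3 : ρ < th p ^ 3 := th4 e he (by omega)
    have ρe : ρ ^ (2 * e) = (p : ℝ)⁻¹ := by
      rw [hρ, ← Real.rpow_natCast, ← Real.rpow_mul p0.le]
      have : -(1 : ℝ) / (2 * (e : ℝ)) * ((2 * e : ℕ) : ℝ) = -1 := by
        push_cast
        have he0 : (e : ℝ) ≠ 0 := by exact_mod_cast (by omega : e ≠ 0)
        field_simp
      rw [this, Real.rpow_neg_one]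
    have ρ1 : ρ < 1 := hρ3.trans_le (pow_le_one₀ th0.le thl.le)
    have ρp : (p : ℝ)⁻¹ ≤ ρ ^ 2 := by
      rw [← ρe]
      exact pow_le_pow_of_le_one ρ0.le ρ1.le (by omega)
    have thp : (p : ℝ)⁻¹ ≤ th p ^ 2 := by
      rw [← th1]
      exact pow_le_pow_of_le_one th0.le thl.le (by omega)
    have hρth : 1 ≤ ρ * (th p * p) := by
      have h1 : ((p : ℝ)⁻¹) ^ 2 ≤ (ρ * th p) ^ 2 := by
        rw [mul_pow, sq]
        gcongr
      have h2 : (p : ℝ)⁻¹ ≤ ρ * th p := le_of_sq_le_sq h1 (by positivity)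
      calc (1 : ℝ) = (p : ℝ)⁻¹ * p := (inv_mul_cancel₀ p0.ne').symm
        _ ≤ (ρ * th p) * p := by gcongr
        _ = ρ * (th p * p) := by ring
    have hρp1 : 1 ≤ ρ * p := by
      refine hρth.trans ?_
      gcongr
      exact mul_le_of_le_one_left p0.le thl.le
    have hpρ : (p : ℝ)⁻¹ ≤ ρ := by
      rw [inv_le_iff_one_le_mul₀ p0]
      exact hρp1
    -- `‖θ t‖ ≤ ρ p`
    have hθt : ‖θ‖ * ‖t‖ ≤ ρ * p := by
      have h0 : (‖θ‖ * ‖t‖) ^ (2 * e) ≤ (ρ * p) ^ (2 * e) := by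
        have h1 : (‖θ‖ * ‖t‖) ^ (2 * e) = ‖θ‖ ^ (2 * e - 2) := by
          obtain ⟨f, rfl⟩ : ∃ f, e = f + 1 := ⟨e - 1, by omega⟩
          have h2 : (2 * (f + 1) - 2) = 2 * f := by omega
          rw [h2]
          calc (‖θ‖ * ‖t‖) ^ (2 * (f + 1)) = ‖θ‖ ^ (2 * f) * (‖θ‖ * ‖t‖ ^ (f + 1)) ^ 2 := by ring
            _ = ‖θ‖ ^ (2 * f) := by rw [hθn, one_pow, mul_one]
        have h2 : (ρ * p) ^ (2 * e) = (p : ℝ) ^ (2 * e - 1) := by
          rw [mul_pow, ρe]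
          obtain ⟨f, hf⟩ : ∃ f, 2 * e = f + 1 := ⟨2 * e - 1, by omega⟩
          rw [hf, Nat.add_sub_cancel, pow_succ]
          field_simp
        rw [h1, h2]
        have h3 : ‖θ‖ ^ (2 * e - 2) * th p ^ (2 * e - 2) ≤ (p : ℝ) ^ (2 * e - 2) := by
          rw [← mul_pow]
          exact pow_le_pow_left₀ (by positivity) hnear _
        have h4 : (p : ℝ)⁻¹ ≤ th p ^ (2 * e - 2) := by
          rw [← th1]
          exact pow_le_pow_of_le_one th0.le thl.le (by omega)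
        have h5 : ‖θ‖ ^ (2 * e - 2) * (p : ℝ)⁻¹ ≤ (p : ℝ) ^ (2 * e - 2) := by
          refine le_trans ?_ h3
          gcongr
        have h6 : (2 * e - 1) = (2 * e - 2) + 1 := by omega
        rw [h6, pow_succ]
        calc ‖θ‖ ^ (2 * e - 2) = ‖θ‖ ^ (2 * e - 2) * (p : ℝ)⁻¹ * p := by
              field_simp
          _ ≤ (p : ℝ) ^ (2 * e - 2) * p := by gcongr
      exact le_of_pow_le_pow_left₀ (by omega) (by positivity) h0
    have hY3 : ‖(α * X₂ - X₁) - (-(D / p))‖ ≤ ρ * p := by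
      have e1 : (α * X₂ - X₁) - (-(D / p)) = -(θ * (S - α)) := by
        rw [E2, hX1e, hDdef]; ring
      rw [e1, norm_neg, norm_mul]
      refine le_trans ?_ hθt
      gcongr
    have hY3n : ‖α * X₂ - X₁‖ = p := by
      have h1 : ‖-(D / (p : K))‖ = p := by rw [norm_neg, gn D hDu.2]
      rw [← h1]
      refine norm_eq' ?_
      rw [h1]
      refine hY3.trans_lt ?_
      calc ρ * p < 1 * p := by gcongr
        _ = p := one_mul _
    have hY3B : ‖(α * X₂ - X₁) - (-D / g₃) * q₃⁻¹‖ ≤ ρ * p := by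
      have g3ne : g₃ ≠ 0 := norm_pos_iff.1 (by rw [hg3.2]; exact one_pos)
      have e1 : (α * X₂ - X₁) - (-D / g₃) * q₃⁻¹ =
          ((α * X₂ - X₁) - (-(D / p))) + (D / g₃) * (q₃⁻¹ - g₃ / p) := by
        field_simp
        ring
      rw [e1]
      refine add_le' hY3 ?_
      rw [norm_mul, norm_div, hDu.2, hg3.2, div_one, one_mul]
      exact m3g.trans hρp1
    have hκ : ‖(p : K) * q₃⁻¹ - g₃‖ ≤ ρ := by
      have e1 : (p : K) * q₃⁻¹ - g₃ = p * (q₃⁻¹ - g₃ / p) := by field_simp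
      rw [e1, norm_mul, hpn]
      refine le_trans ?_ hpρ
      exact mul_le_of_le_one_right (by positivity) m3g
    have hY1 : th p * p ≤ ‖α * X₂‖ → ‖α * X₂ - α * q₂⁻¹‖ ≤ ρ * ‖α * X₂‖ ∧
        ∃ a b : ℕ, 1 ≤ a ∧ 1 ≤ b ∧ q₂⁻¹ ^ a = q₃⁻¹ ^ b := by
      intro h
      refine ⟨?_, ?_⟩
      · have e1 : α * X₂ - α * q₂⁻¹ = -(α * (q₂⁻¹ - X₂)) := by ring
        rw [e1, norm_neg, norm_mul α, hα.2, one_mul]
        refine m2'.trans (hρth.trans ?_)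
        gcongr
      · obtain ⟨c, d, hc, hd, hcd⟩ := hn23
        exact ⟨c, d, hc, hd, by rw [inv_pow, inv_pow, hcd]⟩
    have hY2 : th p * p ≤ ‖-X₁‖ → ‖-X₁ - (-1) * q₁⁻¹‖ ≤ ρ * ‖-X₁‖ ∧
        ∃ a b : ℕ, 1 ≤ a ∧ 1 ≤ b ∧ q₁⁻¹ ^ a = q₃⁻¹ ^ b := by
      intro h
      refine ⟨?_, ?_⟩
      · have e1 : -X₁ - (-1) * q₁⁻¹ = q₁⁻¹ - X₁ := by ring
        rw [e1]
        refine m1'.trans (hρth.trans ?_)
        gcongr
      · obtain ⟨c, d, hc, hd, hcd⟩ := hn13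
        exact ⟨c, d, hc, hd, by rw [inv_pow, inv_pow, hcd]⟩
    have hmain := hTTL p hp (by omega) K hext (α * X₂) (-X₁) (α * X₂ - X₁) q₂⁻¹ q₁⁻¹ q₃⁻¹
      α (-1) (-D / g₃) g₃ ρ ρ0.le hρ3 (sub_eq_add_neg _ _).symm hY3n hB1 hB2 hB3 hg3 hY3B hκ hY1 hY2
    have i23 : q₂⁻¹ / q₃⁻¹ = q₃ / q₂ := by field_simp
    have i13 : q₁⁻¹ / q₃⁻¹ = q₃ / q₁ := by field_simp
    have i21 : q₂⁻¹ / q₁⁻¹ = q₁ / q₂ := by field_simp
    rw [i23, i13, i21] at hmain
    rcases hmain with ⟨h1, h2, h3, h4⟩ | ⟨-, -, h3, h4⟩ | ⟨-, -, h3, h4⟩ | ⟨-, -, h3, h4⟩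
    · -- case (a)
      have hX2n : ‖X₂‖ = p := by rwa [norm_mul, hα.2, one_mul] at h1
      have hX1n : ‖X₁‖ = p := by rwa [norm_neg] at h2
      rcases lt_trichotomy ‖θ‖ (p : ℝ) with hθ | hθ | hθ
      · left
        have hcl : ‖q₃ / q₂ - g₂ / g₃‖ < 1 := by
          have g3ne : g₃ ≠ 0 := norm_pos_iff.1 (by rw [hg3.2]; exact one_pos)
          have e1 : q₃ / q₂ - g₂ / g₃ =
              (((q₂⁻¹ - X₂) + θ) - (g₂ / g₃) * (q₃⁻¹ - g₃ / p)) * q₃ := by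
            rw [E2]
            field_simp
            ring
          have hq3n : ‖q₃‖ = (p : ℝ)⁻¹ := by
            have h5 : ‖q₃⁻¹‖ = p := by
              rw [← gn g₃ hg3.2]
              exact norm_eq' (by rw [gn g₃ hg3.2]; exact m3g.trans_lt pR)
            rw [← h5, norm_inv, inv_inv]
          rw [e1, norm_mul, hq3n, ← div_eq_mul_inv, div_lt_one p0]
          refine sub_lt' (add_lt' (m2'.trans_lt pR) hθ) ?_
          rw [norm_mul, norm_div, hg2.2, hg3.2, div_one, one_mul]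
          exact m3g.trans_lt pR
        exact (pw q2ne (k5 _ h3 hcl) dN5).symm
      · right; right; right
        refine ⟨?_, ?_, ?_, h3, h4⟩
        · rw [hθ] at hθn
          exact eq_inv_of_mul_eq_one_right hθn
        · rw [← hX2n, n2, inv_inv]
        · rw [← hX1n, n1, inv_inv]
      · exfalso
        have h5 : ‖X₂‖ = ‖θ‖ := by
          refine norm_eq' ?_
          have e1 : X₂ - θ = g₂ / p := by rw [E2]; ring
          rw [e1, gn g₂ hg2.2]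
          exact hθ
        rw [h5] at hX2n
        exact absurd hX2n hθ.ne'
    · -- case (b)
      right; right; left
      have h5 : ‖q₁ / q₂ - -(-1 / α)‖ < 1 := by rwa [sub_neg_eq_add]
      exact pw q2ne (k2 _ h3 h5) dN2
    · left
      exact (pw q2ne (k3 _ h3 h4) dN3).symm
    · right; left
      exact (pw q1ne (k4 _ h3 h4) dN4).symm

end

end Pool.Agent.ZP3.H77
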